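import Pool.Agent.H623C.Tri
import Pool.Agent.H492C.Defs
import Pool.Agent.H980R3.Slit.Defs

/-! Bridges between the definitions of the glued qKZ vectors. -/

set_option autoImplicit false
set_option linter.unusedVariables false

namespace Pool.Agent.H623C

open Pool.Agent.H988R2.Perc

theorem gen_le {α : Type*} {E F : α → α → Prop} (key : ∀ x y, E x y → Relation.EqvGen F x y)
    {x y : α} (h : Relation.EqvGen E x y) : Relation.EqvGen F x y := by
  induction h with
  | rel x y h => exact key x y h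
  | refl x => exact Relation.EqvGen.refl _
  | symm x y _ ih => exact ih.symm
  | trans x y z _ _ i1 i2 => exact i1.trans _ _ _ i2

theorem jn_iff31 (a b k : ℕ) (hk : a + 1 = 2 * k) (R R1 R2 : St)
    (h1 : ∀ x y, R1.rel x y → x = y ∨ (x < a + 1 ∧ y < a + 1)) :
    H492C.jn a (a+1+b) R (H492C.comb k R1 R2) ↔ H31C.conn3 a b R R1 R2 := by
  unfold H492C.jn H31C.conn3
  rw [show a + 1 + b = a + b + 1 by ring]
  constructor
  · refine gen_le ?_
    rintro x y (h | h | ⟨k1, k2, h⟩ | ⟨k1, k2, h⟩)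
    · exact Relation.EqvGen.rel _ _ (Or.inl h)
    · subst h; exact Relation.EqvGen.refl _
    · exact Relation.EqvGen.rel _ _ (Or.inr (Or.inl h))
    · exact Relation.EqvGen.rel _ _ (Or.inr (Or.inr ⟨x - 2*k, y - 2*k, by omega, by omega, h⟩))
  · refine gen_le ?_
    rintro x y (h | h | ⟨x', y', h2, h3, h⟩)
    · exact Relation.EqvGen.rel _ _ (Or.inl h)
    · rcases h1 x y h with h' | ⟨k1, k2⟩
      · subst h'; exact Relation.EqvGen.refl _
      · exact Relation.EqvGen.rel _ _ (Or.inr (Or.inr (Or.inl ⟨by omega, by omega, h⟩)))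
    · refine Relation.EqvGen.rel _ _ (Or.inr (Or.inr (Or.inr ⟨by omega, by omega, ?_⟩)))
      have e1 : x - 2*k = x' := by omega
      have e2 : y - 2*k = y' := by omega
      rw [e1, e2]; exact h

theorem pairG_comb2 (p r k : ℕ) (f g h : St →₀ ℂ)
    [∀ R R' : St, Decidable (H492C.jn p r R R')] :
    H492C.pairG p r f (H492C.comb2 k g h) = f.sum fun R x => g.sum fun R1 y => h.sum fun R2 z =>
      x * y * z * (if H492C.jn p r R (H492C.comb k R1 R2) then 1 else 0) := by
  classical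
  unfold H492C.pairG H492C.comb2
  refine Finsupp.sum_congr (fun R _ => ?_)
  rw [Finsupp.sum_sum_index (by intro R'; simp) (by intro R' b c; ring)]
  refine Finsupp.sum_congr (fun R1 _ => ?_)
  rw [Finsupp.sum_sum_index (by intro R'; simp) (by intro R' b c; ring)]
  refine Finsupp.sum_congr (fun R2 _ => ?_)
  rw [Finsupp.sum_single_index (by simp)]
  rw [← mul_assoc (f R)]
  congr

theorem pairG_eq31 (a b : ℕ) (ha : Odd a) (f g h : St →₀ ℂ) (hg : Sup (a+1) g) :
    H492C.pairG a (a+1+b) f (H492C.comb2 ((a+1)/2) g h) = H31C.tri a b f g h := by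
  classical
  obtain ⟨m, hm⟩ := ha
  have hk : a + 1 = 2 * ((a+1)/2) := by omega
  rw [pairG_comb2]
  unfold H31C.tri
  exact tri_congr a b f g h (fun R R1 R2 => H492C.jn a (a+1+b) R (H492C.comb ((a+1)/2) R1 R2))
    (fun R R1 R2 => H31C.conn3 a b R R1 R2)
    (fun R _ R1 hR1 R2 _ => jn_iff31 a b _ hk R R1 R2 (hg R1 hR1))

theorem sup_inv (A : List ℂ) (hA : Odd A.length) :
    Sup (A.length + 1) (Psi (A.map (fun x => x⁻¹) ++ [0])) := by
  have hl : (A.map (fun x => x⁻¹) ++ [0]).length = A.length + 1 := by simp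
  have := sup_Psi (A.map (fun x => x⁻¹) ++ [0]) (by rw [hl]; exact hA.add_one)
  rwa [hl] at this

/-- the two definitions of `GR` agree -/
theorem GR_eq31 (A B : List ℂ) (w : ℂ) (hA : Odd A.length) :
    H492C.GR A w B = H31C.GR A w B :=
  pairG_eq31 A.length B.length hA _ _ _ (sup_inv A hA)

theorem TT_eq31 (A B : List ℂ) (w : ℂ) : H492C.TT A w B = H31C.TT A w B := by
  unfold H492C.TT H31C.TT H31C.inv
  ring

open H980R3.Slit in
theorem conn3_iff980 (a b : ℕ) (R R1 R2 : St)
    (h1 : ∀ x y, R1.rel x y → x = y ∨ (x < a + 1 ∧ y < a + 1)) :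
    H31C.conn3 a b R R1 R2 ↔ H980R3.Slit.conn3 a b R R1 R2 := by
  unfold H31C.conn3 H980R3.Slit.conn3
  constructor
  · refine gen_le ?_
    rintro x y (h | h | ⟨x', y', rfl, rfl, h⟩)
    · exact Relation.EqvGen.rel _ _ (Or.inl h)
    · rcases h1 x y h with k | ⟨k1, k2⟩
      · subst k; exact Relation.EqvGen.refl _
      · exact Relation.EqvGen.rel _ _ (Or.inr (Or.inl ⟨h, by omega, by omega⟩))
    · rcases R2.odd _ _ h with k | ⟨k1, k2⟩
      · subst k; exact Relation.EqvGen.refl _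
      · refine Relation.EqvGen.rel _ _ (Or.inr (Or.inr ⟨by omega, by omega, ?_⟩))
        have e1 : a + 1 + x' - (a + 1) = x' := by omega
        have e2 : a + 1 + y' - (a + 1) = y' := by omega
        rw [e1, e2]; exact h
  · refine gen_le ?_
    rintro x y (h | ⟨h, k1, k2⟩ | ⟨k1, k2, h⟩)
    · exact Relation.EqvGen.rel _ _ (Or.inl h)
    · exact Relation.EqvGen.rel _ _ (Or.inr (Or.inl h))
    · exact Relation.EqvGen.rel _ _
        (Or.inr (Or.inr ⟨x - (a+1), y - (a+1), by omega, by omega, h⟩))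

theorem tri_eq980 (a b : ℕ) (f g h : St →₀ ℂ) (hg : Sup (a+1) g) :
    H31C.tri a b f g h = H980R3.Slit.pair3 a b f g h := by
  classical
  unfold H31C.tri H980R3.Slit.pair3
  exact tri_congr a b f g h (fun R R1 R2 => H31C.conn3 a b R R1 R2)
    (fun R R1 R2 => H980R3.Slit.conn3 a b R R1 R2)
    (fun R _ R1 hR1 R2 _ => conn3_iff980 a b R R1 R2 (hg R1 hR1))

theorem GR_eq980 (A B : List ℂ) (w : ℂ) (hA : Odd A.length) :
    H492C.GR A w B = H980R3.Slit.pair3 A.length B.length (Psi (A ++ w :: (B ++ [0])))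
      (Psi (A.map (fun x => x⁻¹) ++ [0])) (Psi (B.map (fun x => x⁻¹) ++ [0])) := by
  rw [GR_eq31 A B w hA]
  exact tri_eq980 _ _ _ _ _ (sup_inv A hA)

end Pool.Agent.H623C
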