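import Pool.Agent.H988R2.Perc.T17

/-! Adjointness of `act` and reduction of `ins` for joins of two states with a third relation. -/

set_option autoImplicit false
set_option linter.unusedVariables false

namespace Pool.Agent.H623C

open Pool.Agent.H988R2.Perc

/-- the equivalence relation generated by two states and an extra relation -/
def J (R R' : St) (E : ℕ → ℕ → Prop) : ℕ → ℕ → Prop :=
  Relation.EqvGen (fun a b => R.rel a b ∨ R'.rel a b ∨ E a b)

section J

variable {R R' : St} {E : ℕ → ℕ → Prop} {x y z : ℕ}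

theorem J.refl (x : ℕ) : J R R' E x x := Relation.EqvGen.refl _

theorem J.symm (h : J R R' E x y) : J R R' E y x := Relation.EqvGen.symm _ _ h

theorem J.trans (h : J R R' E x y) (h' : J R R' E y z) : J R R' E x z :=
  Relation.EqvGen.trans _ _ _ h h'

theorem J.l (h : R.rel x y) : J R R' E x y := Relation.EqvGen.rel _ _ (Or.inl h)

theorem J.m (h : R'.rel x y) : J R R' E x y := Relation.EqvGen.rel _ _ (Or.inr (Or.inl h))

theorem J.r (h : E x y) : J R R' E x y := Relation.EqvGen.rel _ _ (Or.inr (Or.inr h))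

theorem J_comm (R R' : St) (E : ℕ → ℕ → Prop) : J R R' E = J R' R E := by
  unfold J
  have : (fun a b => R.rel a b ∨ R'.rel a b ∨ E a b) =
      (fun a b => R'.rel a b ∨ R.rel a b ∨ E a b) := by
    funext a b
    apply propext
    constructor
    · rintro (h | h | h)
      · exact Or.inr (Or.inl h)
      · exact Or.inl h
      · exact Or.inr (Or.inr h)
    · rintro (h | h | h)
      · exact Or.inr (Or.inl h)
      · exact Or.inl h
      · exact Or.inr (Or.inr h)
  rw [this]

/-- transport of `J` along a map -/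
theorem J_map {R₁ R₁' : St} {E₁ : ℕ → ℕ → Prop} (f : ℕ → ℕ)
    (h1 : ∀ a b, R.rel a b → J R₁ R₁' E₁ (f a) (f b))
    (h2 : ∀ a b, R'.rel a b → J R₁ R₁' E₁ (f a) (f b))
    (h3 : ∀ a b, E a b → J R₁ R₁' E₁ (f a) (f b)) {a b : ℕ} (h : J R R' E a b) :
    J R₁ R₁' E₁ (f a) (f b) := by
  induction h with
  | rel x y h =>
    rcases h with h | h | h
    · exact h1 _ _ h
    · exact h2 _ _ h
    · exact h3 _ _ h
  | refl x => exact J.refl _
  | symm x y _ ih => exact ih.symm
  | trans x y z _ _ ih1 ih2 => exact ih1.trans ih2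

end J

theorem act_rel_of {i : ℕ} {R : St} {x y : ℕ} (hx : x ≠ i+1) (hy : y ≠ i+1) (h : R.rel x y) :
    (St.act i R).rel x y := by
  rcases R.odd _ _ h with h' | ⟨h1, h2⟩
  · exact Or.inl h'
  · exact Or.inr ⟨h1, h2, hx, hy, Or.inl h⟩

theorem act_rel_join {i : ℕ} (hi : i % 2 = 1) (R : St) : (St.act i R).rel i (i+2) :=
  Or.inr ⟨hi, by omega, by omega, by omega, Or.inr (Or.inl ⟨R.eqv.1 _, R.eqv.1 _⟩)⟩

theorem act_subset {i : ℕ} (R R' : St) (E : ℕ → ℕ → Prop) (a b : ℕ)
    (h : (St.act i R').rel a b) : J (St.act i R) R' E a b := by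
  rcases h with h | ⟨h1, h2, h3, h4, h | ⟨h, h'⟩ | ⟨h, h'⟩⟩
  · subst h; exact J.refl _
  · exact J.m h
  · have hi : i % 2 = 1 := by
      rcases R'.odd _ _ h with h | ⟨_, h⟩
      · rw [← h]; exact h1
      · exact h
    exact (J.m h).trans ((J.l (act_rel_join hi R)).trans (J.m h'))
  · have hi : i % 2 = 1 := by
      rcases R'.odd _ _ h' with h | ⟨h, _⟩
      · rw [h]; exact h2
      · exact h
    exact (J.m h).trans ((J.l (act_rel_join hi R)).symm.trans (J.m h'))

theorem key {i : ℕ} (R R' : St) (E : ℕ → ℕ → Prop)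
    (hE : ∀ x y, E x y → x = y ∨ (x ≠ i+1 ∧ y ≠ i+1)) (a b : ℕ) (ha : a ≠ i+1) (hb : b ≠ i+1) :
    J (St.act i R) R' E a b ↔ J (St.act i R) (St.act i R') E a b := by
  constructor
  · intro h
    have hTr : ∀ {x y : ℕ}, x ≠ i+1 → y ≠ i+1 → R'.rel x y →
        J (St.act i R) (St.act i R') E x y := fun hx hy hxy => J.m (act_rel_of hx hy hxy)
    have key : ∀ x y : ℕ, J (St.act i R) R' E x y →
        (x = y ∨ ∃ x' y' : ℕ, x' ≠ i+1 ∧ y' ≠ i+1 ∧ R'.rel x x' ∧ R'.rel y y' ∧
          J (St.act i R) (St.act i R') E x' y') := by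
      intro x y hxy
      induction hxy with
      | rel x y h =>
        rcases h with h | h | h
        · rcases h with h | ⟨h1, h2, h3, h4, h5⟩
          · exact Or.inl h
          · exact Or.inr ⟨x, y, h3, h4, R'.eqv.1 _, R'.eqv.1 _,
              J.l (Or.inr ⟨h1, h2, h3, h4, h5⟩)⟩
        · by_cases hx : x = i+1
          · by_cases hy : y = i+1
            · left; rw [hx, hy]
            · exact Or.inr ⟨y, y, hy, hy, h, R'.eqv.1 _, J.refl _⟩
          · exact Or.inr ⟨x, x, hx, hx, R'.eqv.1 _, R'.eqv.2 h, J.refl _⟩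
        · rcases hE _ _ h with h' | ⟨h1, h2⟩
          · exact Or.inl h'
          · exact Or.inr ⟨x, y, h1, h2, R'.eqv.1 _, R'.eqv.1 _, J.r h⟩
      | refl x => exact Or.inl rfl
      | symm x y _ ih =>
        rcases ih with h | ⟨x', y', h1, h2, h3, h4, h5⟩
        · exact Or.inl h.symm
        · exact Or.inr ⟨y', x', h2, h1, h4, h3, J.symm h5⟩
      | trans x y z _ _ ih1 ih2 =>
        rcases ih1 with h | ⟨x', y', h1, h2, h3, h4, h5⟩
        · rw [h]; exact ih2
        · rcases ih2 with k | ⟨y'', z', k1, k2, k3, k4, k5⟩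
          · rw [← k]; exact Or.inr ⟨x', y', h1, h2, h3, h4, h5⟩
          · refine Or.inr ⟨x', z', h1, k2, h3, k4, ?_⟩
            exact J.trans h5 (J.trans (hTr h2 k1 (R'.eqv.3 (R'.eqv.2 h4) k3)) k5)
    rcases key a b h with h | ⟨x', y', h1, h2, h3, h4, h5⟩
    · subst h; exact J.refl _
    · exact (hTr ha h1 h3).trans (h5.trans (hTr hb h2 h4).symm)
  · intro h
    exact J_map (f := id) (fun a b h => J.l h) (fun a b h => act_subset R R' E a b h)
      (fun a b h => J.r h) h

/-- adjointness of the generators with a spectator -/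
theorem J_act {i : ℕ} (R R' : St) (E : ℕ → ℕ → Prop)
    (hE : ∀ x y, E x y → x = y ∨ (x ≠ i+1 ∧ y ≠ i+1)) (a b : ℕ) (ha : a ≠ i+1) (hb : b ≠ i+1) :
    J (St.act i R) R' E a b ↔ J R (St.act i R') E a b := by
  rw [key R R' E hE a b ha hb, J_comm R (St.act i R') E, key R' R E hE a b ha hb,
    J_comm (St.act i R') (St.act i R) E]

theorem low_up (i a : ℕ) : St.low i (St.up i a) = a := by
  unfold St.low St.up
  split_ifs <;> omega

theorem up_ne (i a : ℕ) : St.up i a ≠ i+1 := by
  unfold St.up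
  split_ifs <;> omega

theorem up_mod (i a : ℕ) : St.up i a % 2 = a % 2 := by
  unfold St.up
  split_ifs <;> omega

theorem ins_up {i : ℕ} {R : St} {a b : ℕ} (h : R.rel a b) :
    (St.ins i R).rel (St.up i a) (St.up i b) := by
  rcases R.odd _ _ h with h' | ⟨h1, h2⟩
  · left; rw [h']
  · right
    refine ⟨by rw [up_mod]; exact h1, by rw [up_mod]; exact h2, up_ne _ _, up_ne _ _, ?_⟩
    rw [low_up, low_up]; exact h

theorem ins_low {i : ℕ} {R : St} {a b : ℕ} (h : (St.ins i R).rel a b) :
    R.rel (St.low i a) (St.low i b) := by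
  rcases h with h | ⟨_, _, _, _, h⟩
  · subst h; exact R.eqv.1 _
  · exact h

theorem ins_up_low {i : ℕ} (R : St) {x : ℕ} (hx : x % 2 = 1) (hx' : x ≠ i+1) :
    (St.ins i R).rel x (St.up i (St.low i x)) := by
  by_cases h : x ≤ i
  · left; unfold St.low St.up; simp [h]
  · by_cases h2 : x = i+2
    · subst h2
      right
      refine ⟨hx, by rw [up_mod]; unfold St.low; split_ifs <;> omega, hx', up_ne _ _, ?_⟩
      rw [low_up]; exact R.eqv.1 _
    · left; unfold St.low St.up; split_ifs <;> omega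

/-- removal of a small arc which is present in the two states `R`, `R'` -/
theorem J_ins {i : ℕ} (R R' : St) (E E' : ℕ → ℕ → Prop)
    (h1 : ∀ x y, E' x y → x = y ∨ E (St.low i x) (St.low i y))
    (h2 : ∀ x y, E x y → x = y ∨ E' (St.up i x) (St.up i y)) (x y : ℕ)
    (hx : x % 2 = 1) (hy : y % 2 = 1) (hx' : x ≠ i+1) (hy' : y ≠ i+1) :
    J (St.ins i R) (St.ins i R') E' x y ↔ J R R' E (St.low i x) (St.low i y) := by
  constructor
  · intro h
    refine J_map (St.low i) (fun a b h => J.l (ins_low h)) (fun a b h => J.m (ins_low h))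
      (fun a b h => ?_) h
    rcases h1 _ _ h with h' | h'
    · rw [h']; exact J.refl _
    · exact J.r h'
  · intro h
    have h3 : J (St.ins i R) (St.ins i R') E' (St.up i (St.low i x)) (St.up i (St.low i y)) := by
      refine J_map (St.up i) (fun a b h => J.l (ins_up h)) (fun a b h => J.m (ins_up h))
        (fun a b h => ?_) h
      rcases h2 _ _ h with h' | h'
      · rw [h']; exact J.refl _
      · exact J.r h'
    exact (J.l (ins_up_low R hx hx')).trans (h3.trans (J.l (ins_up_low R hy hy')).symm)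

/-- the copy of a state shifted by `2k` faces -/
def sh (k : ℕ) (R : St) : St where
  rel a b := a = b ∨ (2*k ≤ a ∧ 2*k ≤ b ∧ R.rel (a - 2*k) (b - 2*k))
  eqv := by
    obtain ⟨hr, hs, ht⟩ := R.eqv
    refine ⟨fun _ => Or.inl rfl, ?_, ?_⟩
    · rintro a b (h | ⟨h1, h2, h3⟩)
      · exact Or.inl h.symm
      · exact Or.inr ⟨h2, h1, hs h3⟩
    · rintro a b c (h | ⟨h1, h2, h3⟩) (k | ⟨k1, k2, k3⟩)
      · exact Or.inl (h.trans k)
      · subst h; exact Or.inr ⟨k1, k2, k3⟩
      · subst k; exact Or.inr ⟨h1, h2, h3⟩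
      · exact Or.inr ⟨h1, k2, ht h3 k3⟩
  odd := by
    rintro a b (h | ⟨h1, h2, h3⟩)
    · exact Or.inl h
    · rcases R.odd _ _ h3 with h | ⟨h, h'⟩
      · left; omega
      · right; omega

theorem sh_rel {k : ℕ} {R : St} {a b : ℕ} : (sh k R).rel a b ↔
    a = b ∨ (2*k ≤ a ∧ 2*k ≤ b ∧ R.rel (a - 2*k) (b - 2*k)) := Iff.rfl

theorem sh_rel' {k : ℕ} {R : St} {a b : ℕ} : (sh k R).rel (a + 2*k) (b + 2*k) ↔ R.rel a b := by
  rw [sh_rel]
  constructor
  · rintro (h | ⟨_, _, h⟩)
    · have : a = b := by omega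
      subst this; exact R.eqv.1 _
    · have e1 : a + 2*k - 2*k = a := by omega
      have e2 : b + 2*k - 2*k = b := by omega
      rwa [e1, e2] at h
  · intro h
    right
    have e1 : a + 2*k - 2*k = a := by omega
    have e2 : b + 2*k - 2*k = b := by omega
    rw [e1, e2]
    exact ⟨by omega, by omega, h⟩

theorem sh_act (k i : ℕ) (R : St) : sh k (St.act i R) = St.act (i + 2*k) (sh k R) := by
  ext a b
  constructor
  · rintro (h | ⟨h1, h2, h3⟩)
    · exact Or.inl h
    · obtain ⟨a', rfl⟩ := Nat.exists_eq_add_of_le' h1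
      obtain ⟨b', rfl⟩ := Nat.exists_eq_add_of_le' h2
      rw [Nat.add_sub_cancel, Nat.add_sub_cancel] at h3
      rcases h3 with h | ⟨k1, k2, k3, k4, k5⟩
      · left; rw [h]
      · right
        refine ⟨by omega, by omega, by omega, by omega, ?_⟩
        rcases k5 with h | ⟨h, h'⟩ | ⟨h, h'⟩
        · exact Or.inl (sh_rel'.2 h)
        · refine Or.inr (Or.inl ⟨sh_rel'.2 h, ?_⟩)
          have := (sh_rel' (k := k)).2 h'
          rwa [show i + 2 + 2*k = i + 2*k + 2 by ring] at this
        · refine Or.inr (Or.inr ⟨?_, sh_rel'.2 h'⟩)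
          have := (sh_rel' (k := k)).2 h
          rwa [show i + 2 + 2*k = i + 2*k + 2 by ring] at this
  · rintro (h | ⟨h1, h2, h3, h4, h5⟩)
    · exact Or.inl h
    · have hge : ∀ {c : ℕ} {d : ℕ}, 2*k ≤ d → (sh k R).rel c d → 2*k ≤ c := by
        rintro c d hd (h | ⟨h, _, _⟩)
        · omega
        · exact h
      have hge' : ∀ {c : ℕ} {d : ℕ}, 2*k ≤ d → (sh k R).rel d c → 2*k ≤ c := by
        rintro c d hd (h | ⟨_, h, _⟩)
        · omega
        · exact h
      rcases h5 with h | ⟨h, h'⟩ | ⟨h, h'⟩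
      · rcases h with h | ⟨k1, k2, k3⟩
        · exact Or.inl h
        · exact Or.inr ⟨k1, k2, Or.inr ⟨by omega, by omega, by omega, by omega, Or.inl k3⟩⟩
      · have ha := hge (by omega) h
        have hb := hge' (by omega) h'
        obtain ⟨a', rfl⟩ := Nat.exists_eq_add_of_le' ha
        obtain ⟨b', rfl⟩ := Nat.exists_eq_add_of_le' hb
        refine Or.inr ⟨ha, hb, ?_⟩
        rw [Nat.add_sub_cancel, Nat.add_sub_cancel]
        rw [show i + 2*k + 2 = i + 2 + 2*k by ring] at h'
        exact Or.inr ⟨by omega, by omega, by omega, by omega,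
          Or.inr (Or.inl ⟨sh_rel'.1 h, sh_rel'.1 h'⟩)⟩
      · have ha := hge (by omega) h
        have hb := hge' (by omega) h'
        obtain ⟨a', rfl⟩ := Nat.exists_eq_add_of_le' ha
        obtain ⟨b', rfl⟩ := Nat.exists_eq_add_of_le' hb
        refine Or.inr ⟨ha, hb, ?_⟩
        rw [Nat.add_sub_cancel, Nat.add_sub_cancel]
        rw [show i + 2*k + 2 = i + 2 + 2*k by ring] at h
        exact Or.inr ⟨by omega, by omega, by omega, by omega,
          Or.inr (Or.inr ⟨sh_rel'.1 h, sh_rel'.1 h'⟩)⟩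

theorem sh_ins (k i : ℕ) (R : St) : sh k (St.ins i R) = St.ins (i + 2*k) (sh k R) := by
  have hlow : ∀ c, c ≠ i+1 → St.low (i + 2*k) (c + 2*k) = St.low i c + 2*k := by
    intro c hc; unfold St.low; split_ifs <;> omega
  ext a b
  constructor
  · rintro (h | ⟨h1, h2, h3⟩)
    · exact Or.inl h
    · obtain ⟨a', rfl⟩ := Nat.exists_eq_add_of_le' h1
      obtain ⟨b', rfl⟩ := Nat.exists_eq_add_of_le' h2
      rw [Nat.add_sub_cancel, Nat.add_sub_cancel] at h3
      rcases h3 with h | ⟨k1, k2, k3, k4, k5⟩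
      · left; rw [h]
      · right
        refine ⟨by omega, by omega, by omega, by omega, ?_⟩
        rw [hlow _ k3, hlow _ k4]
        exact sh_rel'.2 k5
  · rintro (h | ⟨h1, h2, h3, h4, h5⟩)
    · exact Or.inl h
    · rcases h5 with h | ⟨k1, k2, k3⟩
      · by_cases hab : a = b
        · exact Or.inl hab
        · have ha : 2*k ≤ a := by
            unfold St.low at h; split_ifs at h <;> omega
          have hb : 2*k ≤ b := by
            unfold St.low at h; split_ifs at h <;> omega
          obtain ⟨a', rfl⟩ := Nat.exists_eq_add_of_le' ha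
          obtain ⟨b', rfl⟩ := Nat.exists_eq_add_of_le' hb
          refine Or.inr ⟨ha, hb, ?_⟩
          rw [Nat.add_sub_cancel, Nat.add_sub_cancel]
          rw [hlow _ (by omega), hlow _ (by omega)] at h
          refine Or.inr ⟨by omega, by omega, by omega, by omega, ?_⟩
          have : St.low i a' = St.low i b' := by omega
          rw [this]; exact R.eqv.1 _
      · have ha : 2*k ≤ a := by
          unfold St.low at k1; split_ifs at k1 <;> omega
        have hb : 2*k ≤ b := by
          unfold St.low at k2; split_ifs at k2 <;> omega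
        obtain ⟨a', rfl⟩ := Nat.exists_eq_add_of_le' ha
        obtain ⟨b', rfl⟩ := Nat.exists_eq_add_of_le' hb
        refine Or.inr ⟨ha, hb, ?_⟩
        rw [Nat.add_sub_cancel, Nat.add_sub_cancel]
        rw [hlow _ (by omega), hlow _ (by omega), Nat.add_sub_cancel, Nat.add_sub_cancel] at k3
        exact Or.inr ⟨by omega, by omega, by omega, by omega, k3⟩

end Pool.Agent.H623C
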