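import Pool.Agent.H623C.Tri

/-! Symmetry of `GR` in the left and in the right variables. -/

set_option autoImplicit false
set_option linter.unusedVariables false

namespace Pool.Agent.H623C

open Pool.Agent.H988R2.Perc Pool.Agent.H31C

theorem inv_len (l : List ℂ) : (inv l).length = l.length := by simp [inv]

/-- the exchange relation at inverted parameters -/
theorem exch_inv (u v : List ℂ) (x y : ℂ) (hx : x ≠ 0) (hy : y ≠ 0)
    (h : Even (u.length + v.length)) :
    (q * y - q^2 * x) • Psi (u ++ y⁻¹ :: x⁻¹ :: v) =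
      (q * x - q^2 * y) • Psi (u ++ x⁻¹ :: y⁻¹ :: v) + (x - y) •
      Finsupp.mapDomain (St.act u.length) (Psi (u ++ x⁻¹ :: y⁻¹ :: v)) := by
  have e2 := Psi_exch u v x⁻¹ y⁻¹ h
  have := congrArg (fun F => (x * y) • F) e2
  simp only [smul_add, smul_smul] at this
  have k1 : x * y * (q * x⁻¹ - q^2 * y⁻¹) = q * y - q^2 * x := by field_simp
  have k2 : x * y * (q * y⁻¹ - q^2 * x⁻¹) = q * x - q^2 * y := by field_simp
  have k3 : x * y * (y⁻¹ - x⁻¹) = x - y := by field_simp
  rw [k1, k2, k3] at this
  exact this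

/-- adjacent transposition of left variables -/
theorem GR_swapL (u v : List ℂ) (x y w : ℂ) (B : List ℂ)
    (ha : Odd (u.length + v.length)) (hb : Odd B.length) (hx : x ≠ 0) (hy : y ≠ 0)
    (hxy : q * x - q^2 * y ≠ 0) (hyx : q * y - q^2 * x ≠ 0) :
    GR (u ++ y :: x :: v) w B = GR (u ++ x :: y :: v) w B := by
  have hev : Even (u.length + (v ++ w :: (B ++ [0])).length) := by
    simp only [List.length_append, List.length_cons, List.length_nil]
    obtain ⟨m, hm⟩ := ha; obtain ⟨n, hn⟩ := hb
    exact ⟨m + n + 2, by omega⟩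
  have hev' : Even ((inv u).length + (inv v ++ [0]).length) := by
    rw [List.length_append, inv_len, inv_len, List.length_singleton]
    obtain ⟨m, hm⟩ := ha
    exact ⟨m + 1, by omega⟩
  have e1 := Psi_exch u (v ++ w :: (B ++ [0])) x y hev
  have e3 := exch_inv (inv u) (inv v ++ [0]) x y hx hy hev'
  rw [inv_len] at e3
  have l1 : (u ++ y :: x :: v).length = u.length + v.length + 2 := by
    simp only [List.length_append, List.length_cons]; ring
  have l2 : (u ++ x :: y :: v).length = u.length + v.length + 2 := by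
    simp only [List.length_append, List.length_cons]; ring
  unfold GR
  rw [l1, l2]
  have a1 : (u ++ y :: x :: v) ++ w :: (B ++ [0]) = u ++ y :: x :: (v ++ w :: (B ++ [0])) := by simp
  have a2 : (u ++ x :: y :: v) ++ w :: (B ++ [0]) = u ++ x :: y :: (v ++ w :: (B ++ [0])) := by simp
  have a3 : inv (u ++ y :: x :: v) ++ [0] = inv u ++ y⁻¹ :: x⁻¹ :: (inv v ++ [0]) := by simp [inv]
  have a4 : inv (u ++ x :: y :: v) ++ [0] = inv u ++ x⁻¹ :: y⁻¹ :: (inv v ++ [0]) := by simp [inv]
  rw [a1, a2, a3, a4]
  set I' := Psi (inv u ++ y⁻¹ :: x⁻¹ :: (inv v ++ [0])) with hI'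
  set I := Psi (inv u ++ x⁻¹ :: y⁻¹ :: (inv v ++ [0])) with hI
  set P' := Psi (u ++ y :: x :: (v ++ w :: (B ++ [0]))) with hP'
  set P := Psi (u ++ x :: y :: (v ++ w :: (B ++ [0]))) with hP
  set H := Psi (inv B ++ [0]) with hH
  set a := u.length + v.length + 2 with hadef
  have hadj : ∀ f g : St →₀ ℂ, tri a B.length (Finsupp.mapDomain (St.act u.length) f) g H =
      tri a B.length f (Finsupp.mapDomain (St.act u.length) g) H := fun f g =>
    tri_actL (by omega) f g H
  have main : (q * y - q^2 * x) * ((q * x - q^2 * y) * tri a B.length P' I' H) =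
      (q * y - q^2 * x) * ((q * x - q^2 * y) * tri a B.length P I H) := by
    have s1 : (q * y - q^2 * x) * ((q * x - q^2 * y) * tri a B.length P' I' H) =
        tri a B.length ((q * x - q^2 * y) • P') ((q * y - q^2 * x) • I') H := by
      rw [tri_smul1, tri_smul2]; ring
    rw [s1, e3, e1]
    simp only [tri_add1, tri_add2, tri_smul1, tri_smul2, hadj, t17_mapDomain_act_act]
    have hq := q_spec
    linear_combination (y - x) * (x - y) *
      tri a B.length P (Finsupp.mapDomain (St.act u.length) I) H * hq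
  exact mul_left_cancel₀ hxy (mul_left_cancel₀ hyx main)

/-- adjacent transposition of right variables -/
theorem GR_swapR (A u v : List ℂ) (x y w : ℂ)
    (ha : Odd A.length) (hb : Odd (u.length + v.length)) (hx : x ≠ 0) (hy : y ≠ 0)
    (hxy : q * x - q^2 * y ≠ 0) (hyx : q * y - q^2 * x ≠ 0) :
    GR A w (u ++ y :: x :: v) = GR A w (u ++ x :: y :: v) := by
  have hev : Even ((A ++ w :: u).length + (v ++ [0]).length) := by
    simp only [List.length_append, List.length_cons, List.length_nil]
    obtain ⟨m, hm⟩ := ha; obtain ⟨n, hn⟩ := hb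
    exact ⟨m + n + 2, by omega⟩
  have hev' : Even ((inv u).length + (inv v ++ [0]).length) := by
    rw [List.length_append, inv_len, inv_len, List.length_singleton]
    obtain ⟨m, hm⟩ := hb
    exact ⟨m + 1, by omega⟩
  have e1 := Psi_exch (A ++ w :: u) (v ++ [0]) x y hev
  have e3 := exch_inv (inv u) (inv v ++ [0]) x y hx hy hev'
  rw [inv_len] at e3
  have l0 : (A ++ w :: u).length = A.length + 1 + u.length := by
    simp only [List.length_append, List.length_cons]; ring
  rw [l0] at e1
  have l1 : (u ++ y :: x :: v).length = u.length + v.length + 2 := by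
    simp only [List.length_append, List.length_cons]; ring
  have l2 : (u ++ x :: y :: v).length = u.length + v.length + 2 := by
    simp only [List.length_append, List.length_cons]; ring
  unfold GR
  rw [l1, l2]
  have a1 : A ++ w :: ((u ++ y :: x :: v) ++ [0]) = (A ++ w :: u) ++ y :: x :: (v ++ [0]) := by simp
  have a2 : A ++ w :: ((u ++ x :: y :: v) ++ [0]) = (A ++ w :: u) ++ x :: y :: (v ++ [0]) := by simp
  have a3 : inv (u ++ y :: x :: v) ++ [0] = inv u ++ y⁻¹ :: x⁻¹ :: (inv v ++ [0]) := by simp [inv]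
  have a4 : inv (u ++ x :: y :: v) ++ [0] = inv u ++ x⁻¹ :: y⁻¹ :: (inv v ++ [0]) := by simp [inv]
  rw [a1, a2, a3, a4]
  set I' := Psi (inv u ++ y⁻¹ :: x⁻¹ :: (inv v ++ [0])) with hI'
  set I := Psi (inv u ++ x⁻¹ :: y⁻¹ :: (inv v ++ [0])) with hI
  set P' := Psi ((A ++ w :: u) ++ y :: x :: (v ++ [0])) with hP'
  set P := Psi ((A ++ w :: u) ++ x :: y :: (v ++ [0])) with hP
  set H := Psi (inv A ++ [0]) with hH
  have hHs : Sup (A.length + 1) H := by
    have := sup_Psi (inv A ++ [0]) (by
      rw [List.length_append, inv_len, List.length_singleton]; exact ha.add_one)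
    rwa [List.length_append, inv_len, List.length_singleton] at this
  set b := u.length + v.length + 2 with hbdef
  have hadj : ∀ f g : St →₀ ℂ,
      tri A.length b (Finsupp.mapDomain (St.act (A.length + 1 + u.length)) f) H g =
      tri A.length b f H (Finsupp.mapDomain (St.act u.length) g) := fun f g =>
    tri_actR ha (by omega) f H g hHs
  have main : (q * y - q^2 * x) * ((q * x - q^2 * y) * tri A.length b P' H I') =
      (q * y - q^2 * x) * ((q * x - q^2 * y) * tri A.length b P H I) := by
    have s1 : (q * y - q^2 * x) * ((q * x - q^2 * y) * tri A.length b P' H I') =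
        tri A.length b ((q * x - q^2 * y) • P') H ((q * y - q^2 * x) • I') := by
      rw [tri_smul1, tri_smul3]; ring
    rw [s1, e3, e1]
    simp only [tri_add1, tri_add3, tri_smul1, tri_smul3, hadj, t17_mapDomain_act_act]
    have hq := q_spec
    linear_combination (y - x) * (x - y) *
      tri A.length b P H (Finsupp.mapDomain (St.act u.length) I) * hq
  exact mul_left_cancel₀ hxy (mul_left_cancel₀ hyx main)

/-- inversion of the first left variable -/
theorem GR_invL (A B : List ℂ) (x w : ℂ) (ha : Even A.length) (hb : Odd B.length) (hx : x ≠ 0) :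
    GR (x :: A) w B = x^(B.length + 1) * GR (x⁻¹ :: A) w B := by
  have h1 : Odd (A ++ w :: (B ++ [0])).length := by
    simp only [List.length_append, List.length_cons, List.length_nil]
    obtain ⟨m, hm⟩ := ha; obtain ⟨n, hn⟩ := hb
    exact ⟨m + n + 1, by omega⟩
  have h2 : Odd (inv A ++ [0]).length := by
    rw [List.length_append, inv_len, List.length_singleton]; exact ha.add_one
  have e1 := Psi_inv1 x (A ++ w :: (B ++ [0])) hx h1
  have e2 := Psi_inv1 x⁻¹ (inv A ++ [0]) (inv_ne_zero hx) h2
  rw [inv_inv] at e2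
  unfold GR
  have a1 : (x :: A) ++ w :: (B ++ [0]) = x :: (A ++ w :: (B ++ [0])) := by simp
  have a2 : (x⁻¹ :: A) ++ w :: (B ++ [0]) = x⁻¹ :: (A ++ w :: (B ++ [0])) := by simp
  have a3 : inv (x :: A) ++ [0] = x⁻¹ :: (inv A ++ [0]) := by simp [inv]
  have a4 : inv (x⁻¹ :: A) ++ [0] = x :: (inv A ++ [0]) := by simp [inv]
  have l1 : (x :: A).length = (x⁻¹ :: A).length := by simp
  rw [a1, a2, a3, a4, l1, e1, e2, tri_smul1, tri_smul2, ← mul_assoc]
  congr 1
  have n1 : (A ++ w :: (B ++ [0])).length - 1 = A.length + (B.length + 1) := by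
    simp only [List.length_append, List.length_cons, List.length_nil]; omega
  have n2 : (inv A ++ [0]).length - 1 = A.length := by
    rw [List.length_append, inv_len, List.length_singleton]; omega
  rw [n1, n2, pow_add, inv_pow]
  have : x ^ A.length ≠ 0 := pow_ne_zero _ hx
  field_simp

/-- inversion of the last right variable -/
theorem GR_invR (A B : List ℂ) (x w : ℂ) (ha : Odd A.length) (hb : Even B.length) (hx : x ≠ 0) :
    GR A w (B ++ [x]) = x^(A.length + 1) * GR A w (B ++ [x⁻¹]) := by
  have h1 : Even (A ++ w :: B).length := by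
    simp only [List.length_append, List.length_cons]
    obtain ⟨m, hm⟩ := ha; obtain ⟨n, hn⟩ := hb
    exact ⟨m + n + 1, by omega⟩
  have h2 : Even (inv B).length := by rw [inv_len]; exact hb
  have e1 := Psi_inv0 x (A ++ w :: B) hx h1
  have e2 := Psi_inv0 x⁻¹ (inv B) (inv_ne_zero hx) h2
  rw [inv_inv] at e2
  unfold GR
  have a1 : A ++ w :: ((B ++ [x]) ++ [0]) = (A ++ w :: B) ++ [x, 0] := by simp
  have a2 : A ++ w :: ((B ++ [x⁻¹]) ++ [0]) = (A ++ w :: B) ++ [x⁻¹, 0] := by simp
  have a3 : inv (B ++ [x]) ++ [0] = inv B ++ [x⁻¹, 0] := by simp [inv]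
  have a4 : inv (B ++ [x⁻¹]) ++ [0] = inv B ++ [x, 0] := by simp [inv]
  have l1 : (B ++ [x]).length = (B ++ [x⁻¹]).length := by simp
  rw [a1, a2, a3, a4, l1, e1, e2, tri_smul1, tri_smul3, ← mul_assoc]
  congr 1
  have n1 : (A ++ w :: B).length = B.length + (A.length + 1) := by
    simp only [List.length_append, List.length_cons]; omega
  rw [n1, inv_len, pow_add, inv_pow]
  have : x ^ B.length ≠ 0 := pow_ne_zero _ hx
  field_simp

end Pool.Agent.H623C
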