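import Pool.Agent.H623C.Conn
import Pool.Agent.H31C.Defs

/-! The trilinear gluing: linearity, adjointness, removal of arcs. -/

set_option autoImplicit false
set_option linter.unusedVariables false

namespace Pool.Agent.H623C

open Pool.Agent.H988R2.Perc Pool.Agent.H31C

/-- the relation of the upper right state -/
def E2 (a : ℕ) (R2 : St) (x y : ℕ) : Prop := ∃ x' y', x = a+1+x' ∧ y = a+1+y' ∧ R2.rel x' y'

theorem conn3_iff (a b : ℕ) (R R1 R2 : St) :
    conn3 a b R R1 R2 ↔ J R R1 (E2 a R2) a (a+b+1) := Iff.rfl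

section lin

variable (a b : ℕ) (f f' g g' h h' : St →₀ ℂ) (c : ℂ)

theorem tri_add1 : tri a b (f + f') g h = tri a b f g h + tri a b f' g h := by
  classical
  unfold tri
  rw [Finsupp.sum_add_index']
  · intro R; simp
  · intro R x y
    rw [← Finsupp.sum_add]
    refine Finsupp.sum_congr (fun R' _ => ?_)
    rw [← Finsupp.sum_add]
    refine Finsupp.sum_congr (fun R' _ => ?_)
    ring

theorem tri_smul1 : tri a b (c • f) g h = c * tri a b f g h := by
  classical
  unfold tri
  rw [Finsupp.sum_smul_index' (fun R => by simp), Finsupp.mul_sum]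
  refine Finsupp.sum_congr (fun R _ => ?_)
  rw [Finsupp.mul_sum]
  refine Finsupp.sum_congr (fun R' _ => ?_)
  rw [Finsupp.mul_sum]
  refine Finsupp.sum_congr (fun R' _ => ?_)
  simp only [smul_eq_mul]; ring

theorem tri_add2 : tri a b f (g + g') h = tri a b f g h + tri a b f g' h := by
  classical
  unfold tri
  rw [← Finsupp.sum_add]
  refine Finsupp.sum_congr (fun R _ => ?_)
  rw [Finsupp.sum_add_index']
  · intro R; simp
  · intro R x y
    rw [← Finsupp.sum_add]
    refine Finsupp.sum_congr (fun R' _ => ?_)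
    ring

theorem tri_smul2 : tri a b f (c • g) h = c * tri a b f g h := by
  classical
  unfold tri
  rw [Finsupp.mul_sum]
  refine Finsupp.sum_congr (fun R _ => ?_)
  rw [Finsupp.sum_smul_index' (fun R => by simp), Finsupp.mul_sum]
  refine Finsupp.sum_congr (fun R' _ => ?_)
  rw [Finsupp.mul_sum]
  refine Finsupp.sum_congr (fun R' _ => ?_)
  simp only [smul_eq_mul]; ring

theorem tri_add3 : tri a b f g (h + h') = tri a b f g h + tri a b f g h' := by
  classical
  unfold tri
  rw [← Finsupp.sum_add]
  refine Finsupp.sum_congr (fun R _ => ?_)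
  rw [← Finsupp.sum_add]
  refine Finsupp.sum_congr (fun R _ => ?_)
  rw [Finsupp.sum_add_index']
  · intro R; simp
  · intro R x y
    ring

theorem tri_smul3 : tri a b f g (c • h) = c * tri a b f g h := by
  classical
  unfold tri
  rw [Finsupp.mul_sum]
  refine Finsupp.sum_congr (fun R _ => ?_)
  rw [Finsupp.mul_sum]
  refine Finsupp.sum_congr (fun R' _ => ?_)
  rw [Finsupp.sum_smul_index' (fun R => by simp), Finsupp.mul_sum]
  refine Finsupp.sum_congr (fun R' _ => ?_)
  simp only [smul_eq_mul]; ring

theorem tri_map1 (φ : St → St) [∀ R R1 R2 : St, Decidable (conn3 a b R R1 R2)] :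
    tri a b (Finsupp.mapDomain φ f) g h = f.sum fun R x => g.sum fun R1 y => h.sum fun R2 z =>
      x * y * z * (if conn3 a b (φ R) R1 R2 then 1 else 0) := by
  unfold tri
  rw [Finsupp.sum_mapDomain_index]
  · refine Finsupp.sum_congr (fun R _ => Finsupp.sum_congr (fun R' _ =>
      Finsupp.sum_congr (fun R'' _ => ?_)))
    congr
  · intro R; simp
  · intro R x y
    rw [← Finsupp.sum_add]
    refine Finsupp.sum_congr (fun R' _ => ?_)
    rw [← Finsupp.sum_add]
    refine Finsupp.sum_congr (fun R' _ => ?_)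
    ring

theorem tri_map2 (φ : St → St) [∀ R R1 R2 : St, Decidable (conn3 a b R R1 R2)] :
    tri a b f (Finsupp.mapDomain φ g) h = f.sum fun R x => g.sum fun R1 y => h.sum fun R2 z =>
      x * y * z * (if conn3 a b R (φ R1) R2 then 1 else 0) := by
  unfold tri
  refine Finsupp.sum_congr (fun R _ => ?_)
  rw [Finsupp.sum_mapDomain_index]
  · refine Finsupp.sum_congr (fun R' _ => Finsupp.sum_congr (fun R'' _ => ?_))
    congr
  · intro R; simp
  · intro R x y
    rw [← Finsupp.sum_add]
    refine Finsupp.sum_congr (fun R' _ => ?_)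
    ring

theorem tri_map3 (φ : St → St) [∀ R R1 R2 : St, Decidable (conn3 a b R R1 R2)] :
    tri a b f g (Finsupp.mapDomain φ h) = f.sum fun R x => g.sum fun R1 y => h.sum fun R2 z =>
      x * y * z * (if conn3 a b R R1 (φ R2) then 1 else 0) := by
  unfold tri
  refine Finsupp.sum_congr (fun R _ => Finsupp.sum_congr (fun R' _ => ?_))
  rw [Finsupp.sum_mapDomain_index]
  · refine Finsupp.sum_congr (fun R'' _ => ?_)
    congr
  · intro R; simp
  · intro R x y
    ring

theorem tri_congr (a b : ℕ) (f g h : St →₀ ℂ) (φ φ' : St → St → St → Prop)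
    [∀ R R1 R2 : St, Decidable (φ R R1 R2)] [∀ R R1 R2 : St, Decidable (φ' R R1 R2)]
    (hφ : ∀ R ∈ f.support, ∀ R1 ∈ g.support, ∀ R2 ∈ h.support, (φ R R1 R2 ↔ φ' R R1 R2)) :
    (f.sum fun R x => g.sum fun R1 y => h.sum fun R2 z =>
      x * y * z * (if φ R R1 R2 then (1:ℂ) else 0)) =
    f.sum fun R x => g.sum fun R1 y => h.sum fun R2 z =>
      x * y * z * (if φ' R R1 R2 then (1:ℂ) else 0) := by
  refine Finsupp.sum_congr (fun R hR => Finsupp.sum_congr (fun R1 hR1 =>
    Finsupp.sum_congr (fun R2 hR2 => ?_)))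
  rw [if_congr (hφ R hR R1 hR1 R2 hR2) rfl rfl]

end lin

/-- adjointness of the generators between the lower and the upper left vector -/
theorem tri_actL {a b i : ℕ} (hi : i + 2 ≤ a) (f g h : St →₀ ℂ) :
    tri a b (Finsupp.mapDomain (St.act i) f) g h =
      tri a b f (Finsupp.mapDomain (St.act i) g) h := by
  classical
  rw [tri_map1, tri_map2]
  refine tri_congr a b f g h _ _ (fun R _ R1 _ R2 _ => ?_)
  rw [conn3_iff, conn3_iff]
  refine J_act R R1 _ (fun x y hxy => ?_) _ _ (by omega) (by omega)
  obtain ⟨x', y', h1, h2, _⟩ := hxy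
  exact Or.inr ⟨by omega, by omega⟩

/-- states supported on the faces `< n` -/
def Sup (n : ℕ) (f : St →₀ ℂ) : Prop :=
  ∀ R ∈ f.support, ∀ x y, R.rel x y → x = y ∨ (x < n ∧ y < n)

theorem sup_Psi (l : List ℂ) (h : Even l.length) : Sup l.length (Psi l) :=
  fun R hR x y hxy => Psi_supp l h R hR x y hxy

theorem conn3_comm' (a b k : ℕ) (hk : a + 1 = 2 * k) (R R1 R2 : St) :
    conn3 a b R R1 R2 ↔ J R (sh k R2) R1.rel a (a+b+1) := by
  unfold conn3
  constructor
  · intro h
    have : ∀ x y, Relation.EqvGen (fun x y => R.rel x y ∨ R1.rel x y ∨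
        ∃ x' y', x = a+1+x' ∧ y = a+1+y' ∧ R2.rel x' y') x y → J R (sh k R2) R1.rel x y := by
      intro x y h
      induction h with
      | rel x y h =>
        rcases h with h | h | ⟨x', y', h1, h2, h3⟩
        · exact J.l h
        · exact J.r h
        · refine J.m (Or.inr ⟨by omega, by omega, ?_⟩)
          have e1 : x - 2*k = x' := by omega
          have e2 : y - 2*k = y' := by omega
          rw [e1, e2]; exact h3
      | refl x => exact J.refl _
      | symm x y _ ih => exact ih.symm
      | trans x y z _ _ ih1 ih2 => exact ih1.trans ih2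
    exact this _ _ h
  · intro h
    have : ∀ x y, J R (sh k R2) R1.rel x y → Relation.EqvGen (fun x y => R.rel x y ∨ R1.rel x y ∨
        ∃ x' y', x = a+1+x' ∧ y = a+1+y' ∧ R2.rel x' y') x y := by
      intro x y h
      induction h with
      | rel x y h =>
        rcases h with h | h | h
        · exact Relation.EqvGen.rel _ _ (Or.inl h)
        · rcases h with h | ⟨h1, h2, h3⟩
          · subst h; exact Relation.EqvGen.refl _
          · exact Relation.EqvGen.rel _ _ (Or.inr (Or.inr ⟨x - 2*k, y - 2*k, by omega, by omega, h3⟩))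
        · exact Relation.EqvGen.rel _ _ (Or.inr (Or.inl h))
      | refl x => exact Relation.EqvGen.refl _
      | symm x y _ ih => exact Relation.EqvGen.symm _ _ ih
      | trans x y z _ _ ih1 ih2 => exact Relation.EqvGen.trans _ _ _ ih1 ih2
    exact this _ _ h

/-- adjointness of the generators between the lower and the upper right vector -/
theorem tri_actR {a b j : ℕ} (ha : Odd a) (hj : j + 2 ≤ b) (f g h : St →₀ ℂ) (hg : Sup (a+1) g) :
    tri a b (Finsupp.mapDomain (St.act (a+1+j)) f) g h =
      tri a b f g (Finsupp.mapDomain (St.act j) h) := by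
  classical
  obtain ⟨k, hk⟩ := ha.add_one
  have hk : a + 1 = 2 * k := by omega
  rw [tri_map1, tri_map3]
  refine tri_congr a b f g h _ _ (fun R _ R1 hR1 R2 _ => ?_)
  rw [conn3_comm' a b k hk, conn3_comm' a b k hk, sh_act]
  have e : a + 1 + j = j + 2*k := by omega
  rw [e]
  refine J_act R (sh k R2) _ (fun x y hxy => ?_) _ _ (by omega) (by omega)
  rcases hg R1 hR1 x y hxy with h | ⟨h1, h2⟩
  · exact Or.inl h
  · exact Or.inr ⟨by omega, by omega⟩

end Pool.Agent.H623C
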